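import Pool.Agent.T9h93.QE.AllTVE
import Pool.Agent.T9h16.QL.TVL

set_option autoImplicit false
set_option linter.unusedSectionVars false

/-!
# Piece (H2) of QE: all random stars together, distance `2 * sqrt nu * R / n` for each star
-/

namespace Pool.Agent.T9h93.QE

open Finset
open Pool.Agent.PC34 (prob)
open Pool.Agent.T9h34.Q
open Pool.Agent.T9h34.QE
open Pool.Agent.T9h16.QL (low EnvL finEnvL toEnv manyL)
open Pool.Agent.T9h68.QC (prob_eq sum_update prob_env)

/-- (H2) -/
theorem stTVE : StStarE → StTVE := by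
  classical
  intro hStar V _ _ _ L a B d m ha haL hR Θ
  have : Nonempty (Fin L) := ⟨⟨0, by omega⟩⟩
  have hM0 : (0 : ℝ) < (Fintype.card (Sym2 V → Fin L) : ℝ) := by exact_mod_cast Fintype.card_pos
  have hP : 0 < Fintype.card (Option (Rt B d m) → V) := Fintype.card_pos
  have hst : ∀ Θ : Finset (Sym2 V) → Prop,
      ∑ p : Option (Rt B d m) → V, ∑ G : Sym2 V → Fin L,
        (if Θ (low G a ∪ Pool.Agent.T9h34.Q.star p) then (1 : ℝ) else 0) ≤
      Fintype.card (Option (Rt B d m) → V) *
        ((∑ G : Sym2 V → Fin L, if Θ (low G a) then (1 : ℝ) else 0) +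
          dst L a (Fintype.card V) (Fintype.card (Rt B d m)) *
            Fintype.card (Sym2 V → Fin L)) :=
    fun Θ => star_sum hStar ha haL le_rfl hR Θ
  have hix : ixBelow B d m B = univ := by
    unfold ixBelow
    rw [filter_eq_self]
    intro i _
    exact i.1.2
  have h2 := prob_env (G := Sym2 V → Fin L) (Pk := Ix B d m → Packet V B d m)
    (Nu := V → Ix B d m → V) (fun G pk => Θ (low G a ∪ univ.biUnion fun i =>
      Pool.Agent.T9h34.Q.star (pk i)))
  have h3 : (fun ω : EnvL V L B d m => Θ (stage (toEnv a ω) B)) =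
      fun ω : (Sym2 V → Fin L) × (Ix B d m → Packet V B d m) × (V → Ix B d m → V) =>
        Θ (low ω.1 a ∪ univ.biUnion fun i => Pool.Agent.T9h34.Q.star (ω.2.1 i)) := by
    funext ω
    unfold stage toEnv
    rw [hix]
  have h4 : (0 : ℝ) < Fintype.card (Ix B d m → Packet V B d m) := by
    exact_mod_cast Fintype.card_pos
  have h5 : prob (fun ω : EnvL V L B d m => Θ (stage (toEnv a ω) B)) =
      (∑ pk : Ix B d m → Packet V B d m, ∑ G : Sym2 V → Fin L,
        if Θ (low G a ∪ univ.biUnion fun i => Pool.Agent.T9h34.Q.star (pk i)) then (1 : ℝ)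
          else 0) /
      (Fintype.card (Sym2 V → Fin L) * Fintype.card (Ix B d m → Packet V B d m)) := by
    rw [h3, ← h2]
  rw [h5, prob_eq, div_le_iff₀ (by positivity)]
  refine (manyL (fun G : Sym2 V → Fin L => low G a)
    (Pool.Agent.T9h34.Q.star (ρ := Rt B d m) (V := V)) hst Θ hP univ).trans
    (le_of_eq ?_)
  rw [card_univ]
  generalize (Fintype.card (Sym2 V → Fin L) : ℝ) = M at *
  generalize (Fintype.card (Ix B d m → Packet V B d m) : ℝ) = κ at *
  generalize dst L a (Fintype.card V) (Fintype.card (Rt B d m)) = δ at *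
  generalize (∑ G : Sym2 V → Fin L, if Θ (low G a) then (1 : ℝ) else 0) = S at *
  field_simp

end Pool.Agent.T9h93.QE
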